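import Pool.Agent.W710.DP.Stm1

/-! DP-FAR: lower bound for the functional -/

set_option autoImplicit false

namespace Pool.Agent.W395.DP

open Pool.Agent.W710.DP

theorem Sw_lower (b T e : ℝ) (hP : Par b T e) (Y : ℝ) : ∀ (w : List Letter), GoodW T e w →
    ∀ ζ : Cfg, Om T w.length ζ → (∀ i < w.length, |ζ.1 (i + 1) - ζ.1 i| < Y) →
    -((w.length : ℝ) * (T * |Y| + 1 / 4)) ≤ Sw b w ζ
  | [], _, ζ, _, _ => by simp [Sw]
  | l :: w, hG, ζ, hO, hY => by
      obtain ⟨he, heb, heT⟩ := hP
      have ih := Sw_lower b T e ⟨he, heb, heT⟩ Y w (fun l' hl' => hG l' (List.mem_cons_of_mem _ hl'))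
        (shc 1 ζ) (fun i hi => hO (i + 1) (by simpa using hi))
        (fun i hi => hY (i + 1) (by simpa using hi))
      have hGl := (hG l (by simp)).small (ζ.1 0) (ζ.2 0)
      have h0 := hO 0 (by simp)
      have hY0 := hY 0 (by simp)
      have h1 := (abs_le.1 hGl.1).2
      have h2 : |(ζ.2 0 - b) * (ζ.1 1 - ζ.1 0)| ≤ T * |Y| := by
        rw [abs_mul]
        apply mul_le_mul
        · rw [abs_le]; constructor <;> linarith [h0.1, h0.2]
        · exact (hY0.le).trans (le_abs_self Y)
        · positivity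
        · linarith
      have h3 := (abs_le.1 h2).1
      simp only [Sw, List.length_cons, Nat.cast_add, Nat.cast_one]
      have e1 : ((w.length : ℝ) + 1) * (T * |Y| + 1 / 4) =
        (w.length : ℝ) * (T * |Y| + 1 / 4) + (T * |Y| + 1 / 4) := by ring
      rw [e1]
      linarith

theorem t_far : S_far := by
  intro b T e w hP hG Y
  refine ⟨(w.length : ℝ) * (T * |Y| + 1 / 4) + 1, fun ζ hO hS => ?_⟩
  by_contra hcon
  push Not at hcon
  have h := Sw_lower b T e hP Y w hG ζ hO hcon
  linarith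

end Pool.Agent.W395.DP
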