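import Pool.Agent.W710.DP.Stm1

/-! DP-LOW: no class below a very negative level -/

set_option autoImplicit false

namespace Pool.Agent.W395.DP

open Pool.Agent.W710.DP

theorem ev_zero_of_const {Z : Type} (c : ZMod 2) : ∀ (hs : List (Z → ZMod 2)) (t : List Z) (i : ℕ)
    (hi : i < hs.length), t.length = hs.length + 1 → (∀ p ∈ t, hs[i] p = c) → ev hs t = 0
  | [], _, i, hi, _, _ => absurd hi (by simp)
  | h :: hs, [], i, _, ht, _ => by simp at ht
  | _ :: _, [_], _, _, _, _ => by simp [ev]
  | h :: hs, x :: y :: t, 0, _, _, hc => by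
      have h1 := hc x (by simp)
      have h2 := hc y (by simp)
      simp only [List.getElem_cons_zero] at h1 h2
      rw [ev, h1, h2, CharTwo.add_self_eq_zero, zero_mul]
  | h :: hs, x :: y :: t, i + 1, hi, ht, hc => by
      have := ev_zero_of_const c hs (y :: t) i (by simpa using hi) (by simpa using ht)
        (fun p hp => by
          have := hc p (List.mem_cons_of_mem _ hp)
          simpa using this)
      rw [ev, this, mul_zero]

theorem t_low (h : S_far) : S_low := by
  intro b T e w hP hG
  obtain ⟨M, hM⟩ := h b T e w hP hG 1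
  refine ⟨-M, fun a ha hN => ?_⟩
  obtain ⟨z, hz1, _, hz3⟩ := hN 0 (1 / 4) (by norm_num)
  have hl : (hw w.length).length = w.length := by simp [hw]
  have h0 : pr (ev (hw w.length)) z = 0 := by
    unfold pr
    rw [Finsupp.linearCombination_apply, Finsupp.sum]
    refine Finset.sum_eq_zero fun t ht => ?_
    obtain ⟨htl, hcl, hpt⟩ := hz1 t ht
    rw [hl] at htl
    obtain ⟨p, hp⟩ : ∃ p, p ∈ t := by
      cases t with
      | nil => simp at htl
      | cons p t => exact ⟨p, by simp⟩
    obtain ⟨hO, hS⟩ := hpt p hp
    obtain ⟨i, hi, hY⟩ := hM p hO (by linarith)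
    have hc : ∀ q ∈ t, hy i q = hy i p := by
      intro q hq
      obtain ⟨h1, _⟩ := hcl q hq p hp
      have h2 := abs_le.1 (h1 i hi.le)
      have h3 := abs_le.1 (h1 (i + 1) hi)
      unfold hy
      rcases le_abs.1 hY with h4 | h4
      · rw [if_pos (by linarith), if_pos (by linarith)]
      · rw [if_neg (by linarith), if_neg (by linarith)]
    have : ev (hw w.length) t = 0 := by
      refine ev_zero_of_const (hy i p) (hw w.length) t i (by rw [hl]; exact hi) (by rw [hl]; exact htl)
        fun q hq => ?_
      simp only [hw, List.getElem_map, List.getElem_range]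
      exact hc q hq
    rw [this, smul_zero]
  rw [h0] at hz3
  exact zero_ne_one hz3

end Pool.Agent.W395.DP
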