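import Pool.Agent.W710.DP.Stm1

/-! DP-STEP: one step of the projected gradient -/

set_option autoImplicit false

namespace Pool.Agent.W395.DP

open Pool.Agent.W710.DP

theorem clamp_mem {T : ℝ} (hT : 0 < T) (u : ℝ) : 0 ≤ max 0 (min T u) ∧ max 0 (min T u) ≤ T :=
  ⟨le_max_left _ _, max_le hT.le (min_le_left _ _)⟩

theorem clamp_lip (T u v : ℝ) : |max 0 (min T u) - max 0 (min T v)| ≤ |u - v| := by
  have h1 := abs_max_sub_max_le_max 0 (min T u) 0 (min T v)
  have h2 := abs_min_sub_min_le_max T u T v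
  exact h1.trans (max_le (by simp) (h2.trans (max_le (by simp) le_rfl)))

/-- projection inequality -/
theorem clamp_proj {T S τ g : ℝ} (hS0 : 0 ≤ S) (hST : S ≤ T) (hτ : 0 < τ) :
    g * (max 0 (min T (S - τ * g)) - S) ≤ -((max 0 (min T (S - τ * g)) - S) ^ 2 / τ) := by
  have hT : 0 ≤ T := hS0.trans hST
  set S' := max 0 (min T (S - τ * g)) with hS'
  have key : (S' - S) ^ 2 ≤ -(τ * g) * (S' - S) := by
    rcases le_total T (S - τ * g) with h | h
    · have e : S' = T := by rw [hS', min_eq_left h, max_eq_right hT]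
      rw [e]
      nlinarith
    · rcases le_total 0 (S - τ * g) with h' | h'
      · have e : S' = S - τ * g := by rw [hS', min_eq_right h, max_eq_right h']
        rw [e]
        exact le_of_eq (by ring)
      · have e : S' = 0 := by rw [hS', min_eq_right h, max_eq_left h']
        rw [e]
        nlinarith
  have h2 : (S' - S) ^ 2 / τ ≤ -(g * (S' - S)) := by
    rw [div_le_iff₀ hτ]
    calc (S' - S) ^ 2 ≤ -(τ * g) * (S' - S) := key
      _ = -(g * (S' - S)) * τ := by ring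
  linarith

theorem t_step (h1 : S_desc) (h2 : S_glip) : S_step := by
  intro b T e w hP hG
  obtain ⟨C, hC, hdesc⟩ := h1 b T e w hP hG
  obtain ⟨⟨L', hL', hlip⟩, B, hB, hbd⟩ := h2 b T e w hP hG
  obtain ⟨he, heb, heT⟩ := hP
  have hT : 0 < T := by linarith
  set τ : ℝ := min (1 / (2 * C)) (1 / (4 * (B + 1))) with hτ
  have hτ0 : 0 < τ := lt_min (by positivity) (by positivity)
  have hτC : C ≤ 1 / (2 * τ) := by
    rw [le_div_iff₀ (by positivity)]
    have h : τ ≤ 1 / (2 * C) := min_le_left _ _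
    rw [le_div_iff₀ (by positivity)] at h
    linarith
  have hτB : τ * B ≤ 1 / 4 := by
    have h : τ ≤ 1 / (4 * (B + 1)) := min_le_right _ _
    rw [le_div_iff₀ (by positivity)] at h
    nlinarith
  have hmain : ∀ ζ, Om T w.length ζ → Sw b w (Dst τ b T w ζ) +
      (∑ i ∈ Finset.range (w.length + 1), ((Dst τ b T w ζ).1 i - ζ.1 i) ^ 2 +
        ∑ i ∈ Finset.range w.length, ((Dst τ b T w ζ).2 i - ζ.2 i) ^ 2) / (2 * τ) ≤ Sw b w ζ := by
    intro ζ hO
    have hd := hdesc ζ (Dst τ b T w ζ)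
    set Q1 := ∑ i ∈ Finset.range (w.length + 1), ((Dst τ b T w ζ).1 i - ζ.1 i) ^ 2 with hQ1
    set Q2 := ∑ i ∈ Finset.range w.length, ((Dst τ b T w ζ).2 i - ζ.2 i) ^ 2 with hQ2
    have hQ10 : 0 ≤ Q1 := Finset.sum_nonneg fun _ _ => sq_nonneg _
    have hQ20 : 0 ≤ Q2 := Finset.sum_nonneg fun _ _ => sq_nonneg _
    have e1 : ∑ i ∈ Finset.range (w.length + 1), gradX b w ζ i * ((Dst τ b T w ζ).1 i - ζ.1 i) =
        -(Q1 / τ) := by
      rw [hQ1, Finset.sum_div, ← Finset.sum_neg_distrib]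
      refine Finset.sum_congr rfl fun i _ => ?_
      simp only [Dst]
      field_simp
      ring
    have e2 : ∑ i ∈ Finset.range w.length, gradS w ζ i * ((Dst τ b T w ζ).2 i - ζ.2 i) ≤
        -(Q2 / τ) := by
      rw [hQ2, Finset.sum_div, ← Finset.sum_neg_distrib]
      refine Finset.sum_le_sum fun i hi => ?_
      obtain ⟨h3, h4⟩ := hO i (Finset.mem_range.1 hi)
      exact clamp_proj h3 h4 hτ0
    have e3 : C * (Q1 + Q2) ≤ 1 / (2 * τ) * (Q1 + Q2) :=
      mul_le_mul_of_nonneg_right hτC (by positivity)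
    have e4 : 1 / (2 * τ) * (Q1 + Q2) = (Q1 + Q2) / (2 * τ) := by ring
    have e5 : Q1 / τ + Q2 / τ = 2 * ((Q1 + Q2) / (2 * τ)) := by field_simp
    rw [e1] at hd
    linarith
  refine ⟨τ, hτ0, ?_, ?_, ?_, ?_, ?_⟩
  · intro ζ i _
    exact clamp_mem hT _
  · intro ζ hO i hi
    have h := (hbd ζ hO).1 i hi
    have e : (Dst τ b T w ζ).1 i - ζ.1 i = -(τ * gradX b w ζ i) := by simp only [Dst]; ring
    rw [e, abs_neg, abs_mul, abs_of_pos hτ0]
    calc τ * |gradX b w ζ i| ≤ τ * B := by gcongr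
      _ ≤ 1 / 4 := hτB
  · intro ζ hO i hi
    have h := hmain ζ hO
    have h3 : ((Dst τ b T w ζ).1 i - ζ.1 i) ^ 2 ≤
        ∑ i ∈ Finset.range (w.length + 1), ((Dst τ b T w ζ).1 i - ζ.1 i) ^ 2 :=
      Finset.single_le_sum (f := fun i => ((Dst τ b T w ζ).1 i - ζ.1 i) ^ 2)
        (fun _ _ => sq_nonneg _) (Finset.mem_range.2 (Nat.lt_succ_of_le hi))
    have h4 : 0 ≤ ∑ i ∈ Finset.range w.length, ((Dst τ b T w ζ).2 i - ζ.2 i) ^ 2 :=
      Finset.sum_nonneg fun _ _ => sq_nonneg _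
    have h5 : ((Dst τ b T w ζ).1 i - ζ.1 i) ^ 2 / (2 * τ) ≤
      (∑ i ∈ Finset.range (w.length + 1), ((Dst τ b T w ζ).1 i - ζ.1 i) ^ 2 +
        ∑ i ∈ Finset.range w.length, ((Dst τ b T w ζ).2 i - ζ.2 i) ^ 2) / (2 * τ) := by
      apply div_le_div_of_nonneg_right _ (by positivity)
      linarith
    linarith
  · intro ζ hO i hi
    have h := hmain ζ hO
    have h3 : ((Dst τ b T w ζ).2 i - ζ.2 i) ^ 2 ≤
        ∑ i ∈ Finset.range w.length, ((Dst τ b T w ζ).2 i - ζ.2 i) ^ 2 :=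
      Finset.single_le_sum (f := fun i => ((Dst τ b T w ζ).2 i - ζ.2 i) ^ 2)
        (fun _ _ => sq_nonneg _) (Finset.mem_range.2 hi)
    have h4 : 0 ≤ ∑ i ∈ Finset.range (w.length + 1), ((Dst τ b T w ζ).1 i - ζ.1 i) ^ 2 :=
      Finset.sum_nonneg fun _ _ => sq_nonneg _
    have h5 : ((Dst τ b T w ζ).2 i - ζ.2 i) ^ 2 / (2 * τ) ≤
      (∑ i ∈ Finset.range (w.length + 1), ((Dst τ b T w ζ).1 i - ζ.1 i) ^ 2 +
        ∑ i ∈ Finset.range w.length, ((Dst τ b T w ζ).2 i - ζ.2 i) ^ 2) / (2 * τ) := by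
      apply div_le_div_of_nonneg_right _ (by positivity)
      linarith
    linarith
  · refine ⟨1 + τ * L', by nlinarith [mul_nonneg hτ0.le hL'], fun ζ η ε hε hc => ?_⟩
    obtain ⟨hg1, hg2⟩ := hlip ζ η ε hε hc
    constructor
    · intro i hi
      have h3 := hc.1 i hi
      have h4 := hg1 i hi
      have e : (Dst τ b T w ζ).1 i - (Dst τ b T w η).1 i =
          (ζ.1 i - η.1 i) - τ * (gradX b w ζ i - gradX b w η i) := by simp only [Dst]; ring
      rw [e]
      calc |(ζ.1 i - η.1 i) - τ * (gradX b w ζ i - gradX b w η i)|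
          ≤ |ζ.1 i - η.1 i| + |τ * (gradX b w ζ i - gradX b w η i)| := abs_sub _ _
        _ ≤ ε + τ * (L' * ε) := by
          rw [abs_mul, abs_of_pos hτ0]
          gcongr
        _ = (1 + τ * L') * ε := by ring
    · intro i hi
      have h3 := hc.2 i hi
      have h4 := hg2 i hi
      simp only [Dst]
      refine (clamp_lip T _ _).trans ?_
      have e : (ζ.2 i - τ * gradS w ζ i) - (η.2 i - τ * gradS w η i) =
          (ζ.2 i - η.2 i) - τ * (gradS w ζ i - gradS w η i) := by ring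
      rw [e]
      calc |(ζ.2 i - η.2 i) - τ * (gradS w ζ i - gradS w η i)|
          ≤ |ζ.2 i - η.2 i| + |τ * (gradS w ζ i - gradS w η i)| := abs_sub _ _
        _ ≤ ε + τ * (L' * ε) := by
          rw [abs_mul, abs_of_pos hτ0]
          gcongr
        _ = (1 + τ * L') * ε := by ring

/-- DP-GAIN -/
theorem t_gain (h1 : S_col) (h2 : S_ps) : S_gain := by
  intro b T e w hP hG τ hτ a0 a1 hNC
  obtain ⟨κ0, hκ0, hps⟩ := h2 b T e w hP hG a0 a1 hNC
  have hcol := h1 b T e w hP hG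
  obtain ⟨he, heb, heT⟩ := hP
  obtain ⟨hτ0, _, _, hX, hS, _⟩ := hτ
  set N : ℝ := (w.length : ℝ) with hN
  have hN0 : 0 ≤ N := Nat.cast_nonneg _
  set κ1 : ℝ := min κ0 (e / (2 * (N + 1))) with hκ1
  have hκ10 : 0 < κ1 := lt_min hκ0 (by positivity)
  have hκ1a : κ1 ≤ κ0 := min_le_left _ _
  have hκ1b : N * κ1 ≤ e / 2 := by
    have h : κ1 ≤ e / (2 * (N + 1)) := min_le_right _ _
    rw [le_div_iff₀ (by positivity)] at h
    nlinarith
  set δ : ℝ := min (τ * κ1) (e / 4) with hδ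
  have hδ0 : 0 < δ := lt_min (by positivity) (by positivity)
  have hδa : δ ≤ τ * κ1 := min_le_left _ _
  have hδb : δ ≤ e / 4 := min_le_right _ _
  refine ⟨δ ^ 2 / (2 * τ), by positivity, fun ζ hO ha0 ha1 => ?_⟩
  by_contra hcon
  push Not at hcon
  have hsm : ∀ u : ℝ, Sw b w (Dst τ b T w ζ) + u ^ 2 / (2 * τ) ≤ Sw b w ζ → |u| < δ := by
    intro u hu
    have h3 : u ^ 2 / (2 * τ) < δ ^ 2 / (2 * τ) := by linarith
    have h4 : u ^ 2 < δ ^ 2 := by
      rwa [div_lt_div_iff_of_pos_right (by positivity)] at h3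
    exact abs_lt_of_sq_lt_sq h4 hδ0.le
  have hgX : ∀ i ≤ w.length, |gradX b w ζ i| < κ1 := by
    intro i hi
    have h3 := hsm _ (hX ζ hO i hi)
    have e1 : (Dst τ b T w ζ).1 i - ζ.1 i = -(τ * gradX b w ζ i) := by simp only [Dst]; ring
    rw [e1, abs_neg, abs_mul, abs_of_pos hτ0] at h3
    exact lt_of_mul_lt_mul_left (h3.trans_le hδa) hτ0.le
  have hin := hcol ζ κ1 hκ10.le hκ1b (fun i hi => (hgX i hi.le).le)
  have hgS : ∀ i < w.length, |gradS w ζ i| < κ1 := by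
    intro i hi
    have h3 := hsm _ (hS ζ hO i hi)
    obtain ⟨h4, h5⟩ := hin i hi
    have h6 := abs_lt.1 h3
    have e1 : (Dst τ b T w ζ).2 i = ζ.2 i - τ * gradS w ζ i := by
      have e2 : (Dst τ b T w ζ).2 i = max 0 (min T (ζ.2 i - τ * gradS w ζ i)) := rfl
      rw [e2] at h6 ⊢
      rcases le_total T (ζ.2 i - τ * gradS w ζ i) with h | h
      · rw [min_eq_left h, max_eq_right (by linarith)] at h6
        linarith
      · rcases le_total 0 (ζ.2 i - τ * gradS w ζ i) with h' | h'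
        · rw [min_eq_right h, max_eq_right h']
        · rw [min_eq_right h, max_eq_left h'] at h6
          linarith
    have e3 : (Dst τ b T w ζ).2 i - ζ.2 i = -(τ * gradS w ζ i) := by rw [e1]; ring
    rw [e3, abs_neg, abs_mul, abs_of_pos hτ0] at h3
    exact lt_of_mul_lt_mul_left (h3.trans_le hδa) hτ0.le
  rcases hps ζ hO ha0 ha1 with ⟨i, hi, h⟩ | ⟨i, hi, h⟩
  · linarith [hgX i hi]
  · linarith [hgS i hi]

end Pool.Agent.W395.DP
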